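import Pool.Agent.W2helper63.LL.Stm

/-!
# Project LL, piece REL: the relations at infinity
-/

set_option autoImplicit false

noncomputable section

namespace Pool.Agent.W2helper23.LL

open IsDedekindDomain Matrix WithZero
open scoped Classical
open Pool.Agent.W2helper63.LL

section loc

variable {L : Type} [Field L] [Valued L (WithZero (Multiplicative ℤ))]

theorem mul_lt1 {a b : WithZero (Multiplicative ℤ)} (ha : a ≤ 1) (hb : b < 1) : a * b < 1 :=
  (mul_le_of_le_one_left' ha).trans_lt hb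

theorem mul_lt1' {a b : WithZero (Multiplicative ℤ)} (ha : a < 1) (hb : b ≤ 1) : a * b < 1 :=
  (mul_le_of_le_one_right' hb).trans_lt ha

theorem le_exp_neg_one {a : WithZero (Multiplicative ℤ)} (h : a < 1) : a ≤ exp (-1 : ℤ) := by
  by_cases ha : a = 0
  · simp [ha]
  · rw [← exp_log ha] at h ⊢
    rw [← exp_zero, exp_lt_exp] at h
    rw [exp_le_exp]
    omega

theorem Iw.inv10 {g : GL (Fin 2) L} (h : Iw g) : Valued.v (g⁻¹.1 1 0) < 1 := by
  have e1 : g⁻¹.1 0 0 * g.1 0 0 + g⁻¹.1 0 1 * g.1 1 0 = 1 := by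
    have := congrFun (congrFun g.inv_val 0) 0
    rw [Matrix.mul_apply, Fin.sum_univ_two] at this
    simpa using this
  have e2 : g⁻¹.1 1 0 * g.1 0 0 + g⁻¹.1 1 1 * g.1 1 0 = 0 := by
    have := congrFun (congrFun g.inv_val 1) 0
    rw [Matrix.mul_apply, Fin.sum_univ_two] at this
    simpa using this
  have h1 : Valued.v (g⁻¹.1 0 1 * g.1 1 0) < 1 := by
    rw [map_mul]
    exact mul_lt1 (h.1 0 1).2 h.2
  have h2 : Valued.v (g.1 0 0) = 1 := by
    by_contra h3
    have h4 : Valued.v (g.1 0 0) < 1 := lt_of_le_of_ne (h.1 0 0).1 h3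
    have h5 : Valued.v (g⁻¹.1 0 0 * g.1 0 0) < 1 := by
      rw [map_mul]
      exact mul_lt1 (h.1 0 0).2 h4
    have h6 := Valued.v.map_add_lt h5 h1
    rw [e1, map_one] at h6
    exact lt_irrefl _ h6
  have h3 : g⁻¹.1 1 0 * g.1 0 0 = -(g⁻¹.1 1 1 * g.1 1 0) := by linear_combination e2
  have h4 := congrArg Valued.v h3
  rw [Valuation.map_neg, map_mul, h2, mul_one, map_mul] at h4
  rw [h4]
  exact mul_lt1 (h.1 1 1).2 h.2

theorem ww_conj (p : Lˣ) (g : GL (Fin 2) L) : ((ww p)⁻¹ * g * ww p).1 =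
    !![g.1 1 1, ((p⁻¹ : Lˣ) : L) * g.1 1 0; (p : L) * g.1 0 1, g.1 0 0] := by
  have e : ((ww p)⁻¹).1 = !![0, ((p⁻¹ : Lˣ) : L); 1, 0] := rfl
  have e' : (ww p).1 = !![0, 1; (p : L), 0] := rfl
  rw [Units.val_mul, Units.val_mul]
  ext i j
  fin_cases i <;> fin_cases j <;>
    simp [Matrix.mul_apply, Fin.sum_univ_two, Matrix.vecMul, dotProduct, e, e', mul_comm]

theorem ww_conj' (p : Lˣ) (g : GL (Fin 2) L) : ww p * g * (ww p)⁻¹ = (ww p)⁻¹ * g * ww p := by
  apply Units.ext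
  rw [ww_conj]
  have e : ((ww p)⁻¹).1 = !![0, ((p⁻¹ : Lˣ) : L); 1, 0] := rfl
  have e' : (ww p).1 = !![0, 1; (p : L), 0] := rfl
  rw [Units.val_mul, Units.val_mul]
  ext i j
  fin_cases i <;> fin_cases j <;>
    simp [Matrix.mul_apply, Fin.sum_univ_two, Matrix.vecMul, dotProduct, e, e', mul_comm]

theorem Iw.conj {p : Lˣ} (hp : Valued.v (p : L) = exp (-1 : ℤ)) {g : GL (Fin 2) L} (h : Iw g) :
    Iw ((ww p)⁻¹ * g * ww p) := by
  have key : ∀ g : GL (Fin 2) L, (∀ i j, Valued.v (g.1 i j) ≤ 1) → Valued.v (g.1 1 0) < 1 →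
      (∀ i j, Valued.v (((ww p)⁻¹ * g * ww p).1 i j) ≤ 1) ∧
        Valued.v (((ww p)⁻¹ * g * ww p).1 1 0) < 1 := by
    intro g h1 h2
    have hp1 : Valued.v (p : L) < 1 := by
      rw [hp, ← exp_zero, exp_lt_exp]; norm_num
    have h3 : Valued.v (((p⁻¹ : Lˣ) : L) * g.1 1 0) ≤ 1 := by
      have h4 : Valued.v ((p⁻¹ : Lˣ) : L) = exp (1 : ℤ) := by
        rw [Units.val_inv_eq_inv_val, map_inv₀, hp, ← WithZero.exp_neg]; norm_num
      rw [map_mul, h4]
      calc exp (1 : ℤ) * Valued.v (g.1 1 0) ≤ exp (1 : ℤ) * exp (-1 : ℤ) := by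
            gcongr
            exact le_exp_neg_one h2
        _ = 1 := by rw [← exp_add]; norm_num
    have h5 : Valued.v ((p : L) * g.1 0 1) < 1 := by
      rw [map_mul]
      exact mul_lt1' hp1 (h1 0 1)
    rw [ww_conj]
    refine ⟨fun i j => ?_, by simpa using h5⟩
    fin_cases i <;> fin_cases j
    · simpa using h1 1 1
    · simpa using h3
    · simpa using h5.le
    · simpa using h1 0 0
  have e : ((ww p)⁻¹ * g * ww p)⁻¹ = (ww p)⁻¹ * g⁻¹ * ww p := by group
  have k1 := key g (fun i j => (h.1 i j).1) h.2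
  have k2 := key g⁻¹ (fun i j => (h.1 i j).2) (Iw.inv10 h)
  refine ⟨fun i j => ⟨k1.1 i j, ?_⟩, k1.2⟩
  rw [e]
  exact k2.1 i j

/-! ### Reduction -/

theorem rd_add {p : Lˣ} (hR : Res2 L p) {x y : L} (hx : Valued.v x ≤ 1) (hy : Valued.v y ≤ 1) :
    rd (x + y) = rd x + rd y := by
  unfold rd
  by_cases h1 : Valued.v x < 1 <;> by_cases h2 : Valued.v y < 1
  · rw [if_pos h1, if_pos h2, if_pos (Valued.v.map_add_lt h1 h2)]; rfl
  · have h3 : Valued.v y = 1 := le_antisymm hy (not_lt.1 h2)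
    have h4 : Valued.v (x + y) = Valued.v y :=
      Valuation.map_add_eq_of_lt_right _ (by rw [h3]; exact h1)
    rw [if_pos h1, if_neg h2, if_neg (by rw [h4, h3]; exact lt_irrefl _)]; rfl
  · have h3 : Valued.v x = 1 := le_antisymm hx (not_lt.1 h1)
    have h4 : Valued.v (x + y) = Valued.v x :=
      Valuation.map_add_eq_of_lt_left _ (by rw [h3]; exact h2)
    rw [if_neg h1, if_pos h2, if_neg (by rw [h4, h3]; exact lt_irrefl _)]; rfl
  · have h3 : Valued.v y = 1 := le_antisymm hy (not_lt.1 h2)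
    have h4 : Valued.v x = 1 := le_antisymm hx (not_lt.1 h1)
    rw [if_neg h1, if_neg h2, if_pos (hR.two x y h4 h3)]; rfl

theorem rd_mul {x y : L} (hx : Valued.v x ≤ 1) (hy : Valued.v y ≤ 1) :
    rd (x * y) = rd x * rd y := by
  unfold rd
  rw [map_mul]
  by_cases h1 : Valued.v x < 1
  · rw [if_pos h1, if_pos (mul_lt1' h1 hy), zero_mul]
  · have h3 : Valued.v x = 1 := le_antisymm hx (not_lt.1 h1)
    rw [if_neg h1, h3, one_mul, one_mul]

theorem rd_one : rd (1 : L) = 1 := by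
  unfold rd; rw [map_one, if_neg (lt_irrefl _)]

theorem rd_zero : rd (0 : L) = 0 := by
  unfold rd; rw [map_zero, if_pos zero_lt_one]

/-- the reduction of an element of `GL₂(O)` is invertible -/
theorem rd_det {p : Lˣ} (hR : Res2 L p) {g : GL (Fin 2) L} (h : Integral g) :
    rd (g.1 0 0) * rd (g.1 1 1) - rd (g.1 0 1) * rd (g.1 1 0) ≠ 0 := by
  have key : ∀ i k, rd (g.1 i 0) * rd (g⁻¹.1 0 k) + rd (g.1 i 1) * rd (g⁻¹.1 1 k) =
      (1 : Matrix (Fin 2) (Fin 2) (ZMod 2)) i k := by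
    intro i k
    have e := congrFun (congrFun g.val_inv i) k
    rw [Matrix.mul_apply, Fin.sum_univ_two] at e
    rw [← rd_mul (h i 0).1 (h 0 k).2, ← rd_mul (h i 1).1 (h 1 k).2, ← rd_add hR]
    · have e' : g.1 i 0 * g⁻¹.1 0 k + g.1 i 1 * g⁻¹.1 1 k = (1 : Matrix (Fin 2) (Fin 2) L) i k := e
      rw [e']
      by_cases hik : i = k
      · rw [hik, Matrix.one_apply_eq, Matrix.one_apply_eq, rd_one]
      · rw [Matrix.one_apply_ne hik, Matrix.one_apply_ne hik, rd_zero]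
    · rw [map_mul]; exact mul_le_one' (h i 0).1 (h 0 k).2
    · rw [map_mul]; exact mul_le_one' (h i 1).1 (h 1 k).2
  have k00 := key 0 0
  have k01 := key 0 1
  have k10 := key 1 0
  have k11 := key 1 1
  generalize rd (g.1 0 0) = a at *
  generalize rd (g.1 0 1) = b at *
  generalize rd (g.1 1 0) = c at *
  generalize rd (g.1 1 1) = d at *
  generalize rd (g⁻¹.1 0 0) = a' at *
  generalize rd (g⁻¹.1 0 1) = b' at *
  generalize rd (g⁻¹.1 1 0) = c' at *
  generalize rd (g⁻¹.1 1 1) = d' at *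
  simp only [Matrix.one_apply_eq, ne_eq, Fin.reduceEq, not_false_eq_true, Matrix.one_apply_ne,
    zero_ne_one, one_ne_zero] at k00 k01 k10 k11
  intro h0
  have : (a * d - b * c) * (a' * d' - b' * c') = 1 := by
    linear_combination (c * b' + d * d') * k00 - (c * a' + d * c') * k01 + k11
  rw [h0, zero_mul] at this
  exact zero_ne_one this

theorem sum_lines (Φ : ZMod 2 → ZMod 2 → ℂ) (a b c d : ZMod 2) (h : a * d - b * c ≠ 0) :
    Φ a c + Φ b d + Φ (a + b) (c + d) = Φ 1 0 + Φ 0 1 + Φ 1 1 := by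
  have key : ∀ a b c d : ZMod 2, a * d - b * c ≠ 0 →
      (a = 1 ∧ c = 0 ∧ b = 0 ∧ d = 1 ∧ a + b = 1 ∧ c + d = 1) ∨
      (a = 1 ∧ c = 0 ∧ b = 1 ∧ d = 1 ∧ a + b = 0 ∧ c + d = 1) ∨
      (a = 0 ∧ c = 1 ∧ b = 1 ∧ d = 0 ∧ a + b = 1 ∧ c + d = 1) ∨
      (a = 0 ∧ c = 1 ∧ b = 1 ∧ d = 1 ∧ a + b = 1 ∧ c + d = 0) ∨
      (a = 1 ∧ c = 1 ∧ b = 1 ∧ d = 0 ∧ a + b = 0 ∧ c + d = 1) ∨
      (a = 1 ∧ c = 1 ∧ b = 0 ∧ d = 1 ∧ a + b = 1 ∧ c + d = 0) := by decide
  rcases key a b c d h with h | h | h | h | h | h <;>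
  · obtain ⟨h1, h2, h3, h4, h5, h6⟩ := h
    rw [h5, h6, h1, h2, h3, h4] <;> ring

theorem integral_one : Integral (1 : GL (Fin 2) L) := by
  intro i j
  rw [inv_one]
  refine ⟨?_, ?_⟩ <;>
  · change Valued.v ((1 : Matrix (Fin 2) (Fin 2) L) i j) ≤ 1
    by_cases h : i = j
    · rw [h, Matrix.one_apply_eq, map_one]
    · rw [Matrix.one_apply_ne h, map_zero]; exact zero_le_one

theorem integral_sw : Integral (sw : GL (Fin 2) L) := by
  intro i j
  have e : (sw : GL (Fin 2) L).1 = !![0, 1; 1, 0] := rfl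
  have e' : (sw : GL (Fin 2) L)⁻¹.1 = !![0, 1; 1, 0] := rfl
  rw [e, e']
  fin_cases i <;> fin_cases j <;> simp

theorem integral_nu1 : Integral (nu 1 : GL (Fin 2) L) := by
  intro i j
  have e : (nu 1 : GL (Fin 2) L).1 = !![1, 1; 0, 1] := rfl
  have e' : (nu 1 : GL (Fin 2) L)⁻¹.1 = !![1, -1; 0, 1] := by
    change !![(((1 : Lˣ)⁻¹ : Lˣ) : L), -(((1 : Lˣ)⁻¹ : Lˣ) : L) * 1 * (((1 : Lˣ)⁻¹ : Lˣ) : L); 0,
      (((1 : Lˣ)⁻¹ : Lˣ) : L)] = _
    simp
  rw [e, e']
  fin_cases i <;> fin_cases j <;> simp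

/-- a function on `GL₂(O)/Iw` as a function of the reduction of the first column -/
theorem phi_eq {p : Lˣ} (hR : Res2 L p)
    (hI : ∀ g h : GL (Fin 2) L, Integral g → Integral h → Integral (g * h) ∧ Integral g⁻¹)
    (φ : GL (Fin 2) L → ℂ) (hφ : ∀ g i, Iw i → φ (g * i) = φ g) {m : GL (Fin 2) L}
    (hm : Integral m) : φ m = if rd (m.1 1 0) = 0 then φ 1 else
      if rd (m.1 0 0) = 0 then φ sw else φ (nu 1 * sw) := by
  have hr : ∀ x : L, rd x = 0 ↔ Valued.v x < 1 := by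
    intro x; unfold rd; split_ifs with h <;> simp [h]
  by_cases h1 : rd (m.1 1 0) = 0
  · rw [if_pos h1]
    have := hφ 1 m ⟨hm, (hr _).1 h1⟩
    rwa [one_mul] at this
  · rw [if_neg h1]
    by_cases h2 : rd (m.1 0 0) = 0
    · rw [if_pos h2]
      have h3 : Iw (sw * m) := by
        refine ⟨(hI _ _ integral_sw hm).1, ?_⟩
        have e : (sw * m : GL (Fin 2) L).1 1 0 = m.1 0 0 := by
          rw [Units.val_mul]
          simp [Matrix.mul_apply, Fin.sum_univ_two, sw]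
        rw [e]
        exact (hr _).1 h2
      have h4 := hφ sw _ h3
      have h5 : (sw : GL (Fin 2) L) * (sw * m) = m := by
        rw [← mul_assoc]
        have : (sw : GL (Fin 2) L) * sw = 1 := by
          apply Units.ext
          exact (sw : GL (Fin 2) L).val_inv
        rw [this, one_mul]
      rwa [h5] at h4
    · rw [if_neg h2]
      have h3 : Iw ((nu 1 * sw)⁻¹ * m) := by
        refine ⟨(hI _ _ (hI _ _ (hI _ _ integral_nu1 integral_sw).1 integral_one).2 hm).1, ?_⟩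
        have e : (((nu 1 * sw)⁻¹ * m : GL (Fin 2) L)).1 1 0 = m.1 0 0 + -m.1 1 0 := by
          rw [_root_.mul_inv_rev, Units.val_mul, Units.val_mul]
          have e1 : (sw : GL (Fin 2) L)⁻¹.1 = !![0, 1; 1, 0] := rfl
          have e2 : (nu 1 : GL (Fin 2) L)⁻¹.1 = !![1, -1; 0, 1] := by
            change !![(((1 : Lˣ)⁻¹ : Lˣ) : L), -(((1 : Lˣ)⁻¹ : Lˣ) : L) * 1 *
              (((1 : Lˣ)⁻¹ : Lˣ) : L); 0, (((1 : Lˣ)⁻¹ : Lˣ) : L)] = _
            simp
          rw [e1, e2]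
          simp [Matrix.mul_apply, Fin.sum_univ_two]
        rw [e]
        have h4 : Valued.v (m.1 0 0) = 1 :=
          le_antisymm (hm 0 0).1 (not_lt.1 fun h => h2 ((hr _).2 h))
        have h5 : Valued.v (-m.1 1 0) = 1 := by
          rw [Valuation.map_neg]
          exact le_antisymm (hm 1 0).1 (not_lt.1 fun h => h1 ((hr _).2 h))
        exact hR.two _ _ h4 h5
      have h4 := hφ (nu 1 * sw) _ h3
      rwa [mul_inv_cancel_left] at h4

/-- the sum over `GL₂(O)/Iw` -/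
theorem sum_eq {p : Lˣ} (hR : Res2 L p)
    (hI : ∀ g h : GL (Fin 2) L, Integral g → Integral h → Integral (g * h) ∧ Integral g⁻¹)
    (φ : GL (Fin 2) L → ℂ) (hφ : ∀ g i, Iw i → φ (g * i) = φ g) {m : GL (Fin 2) L}
    (hm : Integral m) : φ m + φ (m * sw) + φ (m * (nu 1 * sw)) =
      φ 1 + φ sw + φ (nu 1 * sw) := by
  have h1 : Integral (m * sw) := (hI _ _ hm integral_sw).1
  have h2 : Integral (m * (nu 1 * sw)) := (hI _ _ hm (hI _ _ integral_nu1 integral_sw).1).1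
  rw [phi_eq hR hI φ hφ hm, phi_eq hR hI φ hφ h1, phi_eq hR hI φ hφ h2]
  have e1 : ∀ i, (m * sw : GL (Fin 2) L).1 i 0 = m.1 i 1 := by
    intro i
    rw [Units.val_mul]
    simp [Matrix.mul_apply, Fin.sum_univ_two, sw]
  have e2 : ∀ i, (m * (nu 1 * sw) : GL (Fin 2) L).1 i 0 = m.1 i 0 + m.1 i 1 := by
    intro i
    have e : (nu 1 * sw : GL (Fin 2) L).1 = !![1, 1; 1, 0] := by
      rw [Units.val_mul]
      ext i j
      fin_cases i <;> fin_cases j <;>
        simp [Matrix.mul_apply, Fin.sum_univ_two, sw, nu, bor]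
    rw [Units.val_mul, e]
    simp [Matrix.mul_apply, Fin.sum_univ_two]
  rw [e1, e1, e2, e2, rd_add hR (hm 1 0).1 (hm 1 1).1, rd_add hR (hm 0 0).1 (hm 0 1).1]
  have := sum_lines (fun a c => if c = 0 then φ 1 else if a = 0 then φ sw else φ (nu 1 * sw))
    (rd (m.1 0 0)) (rd (m.1 0 1)) (rd (m.1 1 0)) (rd (m.1 1 1)) (rd_det hR hm)
  simpa using this

end loc

theorem pr_ri (v : Pl) (x : GL (Fin 2) Kinf) : pr v (ri x) = 1 := by
  unfold pr ri
  exact map_one _

theorem inD_ri {i : GL (Fin 2) Kinf} (h : Iw i) : inD (ri i) := by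
  refine ⟨fun v => ?_, h.1, ?_, h.2⟩
  · rw [pr_ri]; exact integral_one
  · rw [pr_ri]
    change Valued.v ((1 : Matrix (Fin 2) (Fin 2) (Kv v0)) 0 1) < 1
    rw [Matrix.one_apply_ne (by decide), map_zero]
    exact zero_lt_one

theorem chi_ri (i : GL (Fin 2) Kinf) : chi (ri i) = 1 := by
  unfold chi
  rw [pr_ri]
  unfold sgn sgnM
  rw [if_pos]
  left
  ext a b
  change rd ((1 : Matrix (Fin 2) (Fin 2) (Kv v1)) a b) = _
  by_cases h : a = b
  · rw [h, Matrix.one_apply_eq, Matrix.one_apply_eq, rd_one]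
  · rw [Matrix.one_apply_ne h, Matrix.one_apply_ne h, rd_zero]

theorem inD_fin {k : GA} (h : inD k) : inD (k.1, 1) := by
  refine ⟨fun v => h.1 v, integral_one, h.2.2.1, ?_⟩
  change Valued.v ((1 : Matrix (Fin 2) (Fin 2) Kinf) 1 0) < 1
  rw [Matrix.one_apply_ne (by decide), map_zero]
  exact zero_lt_one

/-- scalar matrices are central -/
theorem bor_central {S : Type} [CommRing S] (z : Sˣ) (g : GL (Fin 2) S) :
    bor z 0 z * g = g * bor z 0 z := by
  apply Units.ext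
  rw [Units.val_mul, Units.val_mul]
  have e : (bor z 0 z).1 = !![(z : S), 0; 0, (z : S)] := rfl
  rw [e]
  ext i j
  fin_cases i <;> fin_cases j <;> simp [Matrix.mul_apply, Fin.sum_univ_two, mul_comm]

theorem ww_sq {L : Type} [Field L] (p : Lˣ) : ww p * ww p = bor p 0 p := by
  apply Units.ext
  rw [Units.val_mul]
  have e' : (ww p).1 = !![0, 1; (p : L), 0] := rfl
  have e : (bor p 0 p).1 = !![(p : L), 0; 0, (p : L)] := rfl
  rw [e, e']
  ext i j
  fin_cases i <;> fin_cases j <;> simp [Matrix.mul_apply, Fin.sum_univ_two]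

theorem rel : S_REL := by
  intro hDD hFRV hFRI hINV hVAL hCN f hf F hF
  obtain ⟨i1, i2, i3⟩ := hINV hDD hFRV hCN f hf
  obtain ⟨w1, w2, w3, w4, w5, w6⟩ := hVAL hDD hFRV hFRI f hf
  have hR : Res2 Kinf pinf := hFRI
  have hp : Valued.v ((pinf : Kinfˣ) : Kinf) = exp (-1 : ℤ) := hR.val
  have hI : ∀ g h : GL (Fin 2) Kinf, Integral g → Integral h →
      Integral (g * h) ∧ Integral g⁻¹ := fun g h hg hh =>
    ⟨(hDD.1 Kinf pinf hR g h hg hh).1, (hDD.1 Kinf pinf hR g h hg hh).2.1⟩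
  have ri_mul : ∀ x y : GL (Fin 2) Kinf, ri (x * y) = ri x * ri y := by
    intro x y; unfold ri; rw [Prod.mk_mul_mk, one_mul]
  have fI : ∀ g i, Iw i → f (g * ri i) = f g := by
    intro g i hi
    rw [i3 g _ (inD_ri hi), chi_ri, one_mul]
  have bA : ∀ z : Kinfˣ, borA (1, z) 0 (1, z) = ri (bor z 0 z) := by
    intro z
    unfold borA ri
    refine Prod.ext ?_ rfl
    apply Units.ext
    ext i j
    fin_cases i <;> fin_cases j <;> simp [bor]
  have cen : ∀ (z : Kinfˣ) (g : GA), ri (bor z 0 z) * g = g * ri (bor z 0 z) := by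
    intro z g
    refine Prod.ext ?_ ?_
    · change 1 * g.1 = g.1 * 1
      rw [one_mul, mul_one]
    · exact bor_central z g.2
  have fZ : ∀ g z, f (g * ri (bor z 0 z)) = f g := by
    intro g z
    rw [← cen, ← bA, i2]
  have hzz : zz = ri (bor pinf 0 pinf) := rfl
  have fz1 : ∀ g, f (zz * g) = f g := by
    intro g; rw [hzz, cen, fZ]
  have fzn : ∀ (n : ℤ) (g : GA), f (zz ^ n * g) = f g := by
    intro n
    induction n with
    | zero => intro g; rw [zpow_zero, one_mul]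
    | succ n ih => intro g; rw [_root_.zpow_add_one, mul_assoc, ih, fz1]
    | pred n ih =>
      intro g
      rw [_root_.zpow_sub_one, mul_assoc, ih]
      have := fz1 (zz⁻¹ * g)
      rw [mul_inv_cancel_left] at this
      exact this.symm
  have supp : ∀ g, f g ≠ 0 → ∃ (γ : GL (Fin 2) K) (n : ℤ) (k : GA), inD k ∧
      g = dg γ * zz ^ n * k := by
    intro g hg
    by_contra hcon
    exact hg (hf.2 g hcon)
  -- the value on a translate
  have key : ∀ (γ : GL (Fin 2) K) (n : ℤ) (k : GA), inD k → ∀ x : GL (Fin 2) Kinf,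
      f (dg γ * zz ^ n * k * ri x) = chi k * f (ri (k.2 * x)) := by
    intro γ n k hk x
    rw [mul_assoc, mul_assoc, i1, fzn]
    have e : k * ri x = ri (k.2 * x) * (k.1, 1) := by
      refine Prod.ext ?_ ?_
      · change k.1 * 1 = 1 * k.1
        rw [one_mul, mul_one]
      · change k.2 * x = k.2 * x * 1
        rw [mul_one]
    rw [e, i3 _ _ (inD_fin hk)]
    rfl
  have isw : Integral (nu 1 * sw : GL (Fin 2) Kinf) := (hI _ _ integral_nu1 integral_sw).1
  -- part A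
  have A : ∀ g, f g + f (g * ri sw) + f (g * ri (nu 1 * sw)) = 0 := by
    intro g
    by_contra hne
    obtain ⟨k0, hk0I, hk0⟩ : ∃ k0, Integral k0 ∧ f (g * ri k0) ≠ 0 := by
      by_contra hall
      push Not at hall
      apply hne
      have h1 : f g = f (g * ri 1) := by
        rw [show ri (1 : GL (Fin 2) Kinf) = 1 from rfl, mul_one]
      rw [h1, hall _ integral_one, hall _ integral_sw, hall _ isw]
      norm_num
    obtain ⟨γ, n, k, hk, hg⟩ := supp _ hk0
    have hg' : ∀ x, f (g * ri x) = chi k * f (ri (k.2 * k0⁻¹ * x)) := by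
      intro x
      have e : g * ri x = dg γ * zz ^ n * k * ri (k0⁻¹ * x) := by
        rw [← hg, mul_assoc, ← ri_mul, mul_inv_cancel_left]
      rw [e, key γ n k hk, mul_assoc]
    have h1 : f g = f (g * ri 1) := by
      rw [show ri (1 : GL (Fin 2) Kinf) = 1 from rfl, mul_one]
    apply hne
    rw [h1, hg', hg', hg', mul_one, ← mul_add, ← mul_add]
    have hm : Integral (k.2 * k0⁻¹) := (hI _ _ hk.2.1 (hI _ _ hk0I hk0I).2).1
    have h2 := sum_eq hR hI (fun x => f (ri x)) (fun x i hi => by rw [ri_mul]; exact fI _ _ hi) hm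
    rw [h2, show ri (1 : GL (Fin 2) Kinf) = 1 from rfl, w1, w2, w3]
    norm_num
  -- part B
  have B : ∀ g, f (g * ri (ww pinf)) + f (g * ri sw * ri (ww pinf)) +
      f (g * ri (nu 1 * sw) * ri (ww pinf)) = 0 := by
    intro g
    by_contra hne
    obtain ⟨k0, hk0I, hk0⟩ : ∃ k0, Integral k0 ∧ f (g * ri k0 * ri (ww pinf)) ≠ 0 := by
      by_contra hall
      push Not at hall
      apply hne
      have h1 : f (g * ri (ww pinf)) = f (g * ri 1 * ri (ww pinf)) := by
        rw [show ri (1 : GL (Fin 2) Kinf) = 1 from rfl, mul_one]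
      rw [h1, hall _ integral_one, hall _ integral_sw, hall _ isw]
      norm_num
    obtain ⟨γ, n, k, hk, hg⟩ := supp _ hk0
    have hkI : Iw k.2 := ⟨hk.2.1, hk.2.2.2⟩
    obtain ⟨m, hm'⟩ : ∃ m, m = (ww pinf)⁻¹ * k.2 * ww pinf * k0⁻¹ := ⟨_, rfl⟩
    have hm : Integral m := by
      rw [hm']
      exact (hI _ _ (Iw.conj hp hkI).1 (hI _ _ hk0I hk0I).2).1
    have hg' : ∀ x, f (g * ri x * ri (ww pinf)) =
        chi k * f (ri ((ww pinf)⁻¹ * (m * x) * ww pinf)) := by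
      intro x
      have e : g * ri x * ri (ww pinf) =
          dg γ * zz ^ n * k * ri ((ww pinf)⁻¹ * k0⁻¹ * x * ww pinf) := by
        rw [← hg]
        simp only [mul_assoc]
        simp only [← ri_mul, mul_inv_cancel_left]
      rw [e, key γ n k hk]
      congr 2
      have e2 : k.2 * (ww pinf)⁻¹ = (ww pinf)⁻¹ * ((ww pinf)⁻¹ * k.2 * ww pinf) := by
        rw [← ww_conj']
        group
      rw [hm']
      congr 1
      calc k.2 * ((ww pinf)⁻¹ * k0⁻¹ * x * ww pinf) =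
            (k.2 * (ww pinf)⁻¹) * k0⁻¹ * x * ww pinf := by group
        _ = _ := by rw [e2]; group
    have h1 : f (g * ri (ww pinf)) = f (g * ri 1 * ri (ww pinf)) := by
      rw [show ri (1 : GL (Fin 2) Kinf) = 1 from rfl, mul_one]
    apply hne
    rw [h1, hg', hg', hg', mul_one, ← mul_add, ← mul_add]
    have h2 := sum_eq hR hI (fun x => f (ri ((ww pinf)⁻¹ * x * ww pinf))) (fun x i hi => by
      have e : (ww pinf)⁻¹ * (x * i) * ww pinf =
          (ww pinf)⁻¹ * x * ww pinf * ((ww pinf)⁻¹ * i * ww pinf) := by group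
      rw [e, ri_mul]
      exact fI _ _ (Iw.conj hp hi)) hm
    have e1 : (ww pinf)⁻¹ * (1 : GL (Fin 2) Kinf) * ww pinf = 1 := by group
    have e3 : f (ri ((ww pinf)⁻¹ * (nu 1 * sw) * ww pinf)) = -1 := by
      obtain ⟨X, hX⟩ : ∃ X, X = (nu (Tu : Kinf))⁻¹ * ((ww pinf)⁻¹ * (nu 1 * sw) * ww pinf) :=
        ⟨_, rfl⟩
      have hX' : (ww pinf)⁻¹ * (nu 1 * sw) * ww pinf = nu (Tu : Kinf) * X := by
        rw [hX, mul_inv_cancel_left]
      have hTp : ((Tu : Kinfˣ) : Kinf) * ((pinf : Kinfˣ) : Kinf) = 1 := by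
        rw [← Units.val_mul]; unfold pinf; rw [mul_inv_cancel, Units.val_one]
      have hpi : ((pinf⁻¹ : Kinfˣ) : Kinf) = ((Tu : Kinfˣ) : Kinf) := by
        unfold pinf; rw [inv_inv]
      have hXv : X.1 = !![-1, 0; ((pinf : Kinfˣ) : Kinf), 1] := by
        have e4 : (nu (Tu : Kinf))⁻¹.1 = !![1, -(Tu : Kinf); 0, 1] := by
          change !![(((1 : Kinfˣ)⁻¹ : Kinfˣ) : Kinf), -(((1 : Kinfˣ)⁻¹ : Kinfˣ) : Kinf) *
            (Tu : Kinf) * (((1 : Kinfˣ)⁻¹ : Kinfˣ) : Kinf); 0, (((1 : Kinfˣ)⁻¹ : Kinfˣ) : Kinf)] = _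
          simp
        have e5 : (nu 1 * sw : GL (Fin 2) Kinf).1 = !![1, 1; 1, 0] := by
          rw [Units.val_mul]
          ext i j
          fin_cases i <;> fin_cases j <;>
            simp [Matrix.mul_apply, Fin.sum_univ_two, sw, nu, bor]
        rw [hX, Units.val_mul, ww_conj, e4, e5]
        ext i j
        fin_cases i <;> fin_cases j <;>
          simp [Matrix.mul_apply, Fin.sum_univ_two, hpi, hTp]
      have hXi : X⁻¹.1 = !![-1, 0; ((pinf : Kinfˣ) : Kinf), 1] := by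
        have e4 : X.1 * !![-1, 0; ((pinf : Kinfˣ) : Kinf), 1] = 1 := by
          rw [hXv]
          ext i j
          fin_cases i <;> fin_cases j <;>
            simp [Matrix.mul_apply, Fin.sum_univ_two]
        calc X⁻¹.1 = X⁻¹.1 * (X.1 * !![-1, 0; ((pinf : Kinfˣ) : Kinf), 1]) := by
              rw [e4, mul_one]
          _ = (X⁻¹.1 * X.1) * !![-1, 0; ((pinf : Kinfˣ) : Kinf), 1] := by rw [mul_assoc]
          _ = _ := by
              have : X⁻¹.1 * X.1 = 1 := X.inv_val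
              rw [this, one_mul]
      have hp1 : Valued.v ((pinf : Kinfˣ) : Kinf) < 1 := by
        rw [hp, ← exp_zero, exp_lt_exp]; norm_num
      have hXI : Iw X := by
        refine ⟨fun i j => ?_, ?_⟩
        · rw [hXv, hXi]
          fin_cases i <;> fin_cases j <;> simp [hp1.le, Valuation.map_neg]
        · rw [hXv]
          simpa using hp1
      rw [hX', ri_mul, fI _ _ hXI, w4]
    rw [h2, e1, show ri (1 : GL (Fin 2) Kinf) = 1 from rfl, w1, w5, e3]
    norm_num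
  refine ⟨?_, ?_, ?_, ?_, ?_⟩
  · intro g i hi
    rw [hF, hF, fI g i hi]
    congr 1
    have e : g * ri i * ri (ww pinf) =
        g * ri (ww pinf) * ri ((ww pinf)⁻¹ * i * ww pinf) := by
      simp only [mul_assoc, ← ri_mul, mul_inv_cancel_left]
    rw [e, fI _ _ (Iw.conj hp hi)]
  · intro g
    rw [hF, hF, mul_assoc, ← ri_mul, ww_sq, fZ]
    ring
  · intro g
    rw [hF, hF, hF]
    have h1 := A g
    have h2 := B g
    linear_combination h1 - h2
  · intro g z
    rw [hF, hF, fZ, mul_assoc, cen, ← mul_assoc, fZ]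
  · rw [hF, one_mul, w1, w6, sub_zero]

end Pool.Agent.W2helper23.LL
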